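import Pool.Agent.Q260.OE.Stm
import Pool.Agent.Q213.GM.Lap

set_option autoImplicit false

/-!
# Project OE, job COR1: corollaries of the limit of the quadratic forms
-/

namespace Pool.Agent.Q237.OE.COR1

open Complex MeasureTheory Filter Topology Set
open Pool.Agent.Q286.BD (cl mz difR JR)
open Pool.Agent.Q260.GM (ph L2psi)
open Pool.Agent.Q260.OE

noncomputable section

theorem De_meas (a : ℝ →₀ ℝ) : Measurable (De a) := by
  unfold De difR Finsupp.sum
  have h1 : Measurable fun w : ℝ => Real.exp (-w) := by fun_prop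
  refine Measurable.sub ?_ ?_
  · exact Measurable.ite (measurableSet_le h1 measurable_const) measurable_const measurable_const
  · refine Finset.measurable_sum _ fun θ _ => ?_
    exact (measurable_fract.comp (measurable_const.div h1)).const_mul _

/-- the integrand of the quadratic form is integrable on bounded intervals -/
theorem int_form (hXW : S_XW) (a : ℝ →₀ ℝ) (ha : ∀ θ ∈ a.support, 0 < θ ∧ θ ≤ 1) (α β L s t : ℝ) :
    IntervalIntegrable (fun w : ℝ => (α * De a w - β * ph w / L) ^ 2 * Real.exp (-w)) volume s t := by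
  obtain ⟨C, hC, hph⟩ := Pool.Agent.Q213.GM.ph_le
  have h1 : IntervalIntegrable (fun w : ℝ => De a w ^ 2 * Real.exp (-w)) volume s t :=
    ((hXW.1 a ha).1).intervalIntegrable
  have h2 : IntervalIntegrable (fun w : ℝ => (C * Real.exp w) ^ 2 * Real.exp (-w)) volume s t :=
    Continuous.intervalIntegrable (by fun_prop) s t
  refine ((h1.const_mul (2 * α ^ 2)).add (h2.const_mul (2 * (β / L) ^ 2))).mono_fun' ?_ ?_
  · have hm : Measurable fun w : ℝ => (α * De a w - β * ph w / L) ^ 2 * Real.exp (-w) :=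
      ((((De_meas a).const_mul α).sub ((Pool.Agent.Q213.GM.ph_meas.const_mul β).div_const L)).pow_const
        2).mul (by fun_prop)
    exact hm.aestronglyMeasurable
  · refine Eventually.of_forall fun w => ?_
    show ‖(α * De a w - β * ph w / L) ^ 2 * Real.exp (-w)‖ ≤ _
    rw [Real.norm_of_nonneg (by positivity)]
    have h3 : ph w ^ 2 ≤ (C * Real.exp w) ^ 2 := by
      rw [← sq_abs (ph w)]
      exact pow_le_pow_left₀ (abs_nonneg _) (hph w) 2
    have h4 : (α * De a w - β * ph w / L) ^ 2 ≤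
        2 * α ^ 2 * De a w ^ 2 + 2 * (β / L) ^ 2 * (C * Real.exp w) ^ 2 := by
      have h5 : (α * De a w - β * ph w / L) ^ 2 ≤
          2 * α ^ 2 * De a w ^ 2 + 2 * (β / L) ^ 2 * ph w ^ 2 := by
        have e : β * ph w / L = β / L * ph w := by ring
        rw [e]
        nlinarith [sq_nonneg (α * De a w + β / L * ph w)]
      have h6 : 2 * (β / L) ^ 2 * ph w ^ 2 ≤ 2 * (β / L) ^ 2 * (C * Real.exp w) ^ 2 :=
        mul_le_mul_of_nonneg_left h3 (by positivity)
      linarith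
    calc (α * De a w - β * ph w / L) ^ 2 * Real.exp (-w)
        ≤ (2 * α ^ 2 * De a w ^ 2 + 2 * (β / L) ^ 2 * (C * Real.exp w) ^ 2) * Real.exp (-w) :=
          mul_le_mul_of_nonneg_right h4 (Real.exp_pos _).le
      _ = _ := by ring

theorem supp_ok {Lf : ℕ → ℝ} {af : ℕ → (ℝ →₀ ℝ)} (hF : Fam Lf af) (j : ℕ) :
    ∀ θ ∈ (af j).support, 0 < θ ∧ θ ≤ 1 := fun θ hθ =>
  ⟨(Real.exp_pos _).trans_le (hF.supp j θ hθ).1, (hF.supp j θ hθ).2⟩

/-- the part of the error outside of `[0, L]` -/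
theorem outside (hQF : S_QF) (hLEG : S_LEG) (hXW : S_XW) (hRH : RiemannHypothesis) {Lf : ℕ → ℝ}
    {af : ℕ → (ℝ →₀ ℝ)} (hF : Fam Lf af) :
    Tendsto (fun j => Lf j * ((∫ w : ℝ, De (af j) w ^ 2 * Real.exp (-w)) -
      ∫ w in (0 : ℝ)..(Lf j), De (af j) w ^ 2 * Real.exp (-w))) atTop (𝓝 0) := by
  obtain ⟨-, h1⟩ := hQF hRH Lf af hF 1 0 0 1 le_rfl zero_le_one le_rfl
  have h2 : ∀ g : Go, (∫ x in (0 : ℝ)..1, (1 * (pm (mz (cl g))).eval x + 0 * (mz (cl g) : ℝ)) ^ 2) /
      (1 / 4 + (g : ℝ) ^ 2) = (mz (cl g) : ℝ) ^ 2 / (1 / 4 + (g : ℝ) ^ 2) := by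
    intro g
    rw [← (hLEG (mz (cl g))).2.2.2.1]
    congr 2
    funext x
    ring
  have h3 : (∑' g : Go, (∫ x in (0 : ℝ)..1, (1 * (pm (mz (cl g))).eval x + 0 * (mz (cl g) : ℝ)) ^ 2) /
      (1 / 4 + (g : ℝ) ^ 2)) = BB := tsum_congr h2
  rw [h3] at h1
  have h4 := hF.opt.sub h1
  rw [sub_self] at h4
  refine h4.congr fun j => ?_
  rw [← (hXW.1 (af j) (supp_ok hF j)).2, mul_sub]
  congr 2
  rw [zero_mul, one_mul]
  refine intervalIntegral.integral_congr fun w _ => ?_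
  ring

theorem t_COR1 (hQF : S_QF) (hLEG : S_LEG) (hXW : S_XW) : S_COR1 := by
  intro hRH Lf af hF
  have hpos : ∀ᶠ j in atTop, 0 < Lf j := hF.tend.eventually_gt_atTop 0
  have hA : Summable (fun g : Go =>
        (∫ x in (0 : ℝ)..1, (1 * (pm (mz (cl g))).eval x + (-1) * (mz (cl g) : ℝ)) ^ 2) /
        (1 / 4 + (g : ℝ) ^ 2)) ∧
      Tendsto (fun j => Lf j * ∫ w in (0 : ℝ)..(Lf j),
        (1 * De (af j) w - (-1) * ph w / Lf j) ^ 2 * Real.exp (-w)) atTop
      (𝓝 (∑' g : Go, (∫ x in (0 : ℝ)..1, (1 * (pm (mz (cl g))).eval x + (-1) * (mz (cl g) : ℝ)) ^ 2) /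
        (1 / 4 + (g : ℝ) ^ 2))) := by
    have h := hQF hRH Lf af hF 1 (-1) 0 1 le_rfl zero_le_one le_rfl
    simpa only [zero_mul, one_mul] using h
  have hB : Summable (fun g : Go =>
        (∫ x in (0 : ℝ)..1, (1 * (pm (mz (cl g))).eval x + 1 * (mz (cl g) : ℝ)) ^ 2) /
        (1 / 4 + (g : ℝ) ^ 2)) ∧
      Tendsto (fun j => Lf j * ∫ w in (0 : ℝ)..(Lf j),
        (1 * De (af j) w - 1 * ph w / Lf j) ^ 2 * Real.exp (-w)) atTop
      (𝓝 (∑' g : Go, (∫ x in (0 : ℝ)..1, (1 * (pm (mz (cl g))).eval x + 1 * (mz (cl g) : ℝ)) ^ 2) /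
        (1 / 4 + (g : ℝ) ^ 2))) := by
    have h := hQF hRH Lf af hF 1 1 0 1 le_rfl zero_le_one le_rfl
    simpa only [zero_mul, one_mul] using h
  have hout := outside hQF hLEG hXW hRH hF
  -- the mass of the negative half line is at most the mass outside
  have hf0 : ∀ j, ∀ w : ℝ, 0 ≤ De (af j) w ^ 2 * Real.exp (-w) := fun j w => by positivity
  have hfi : ∀ j, Integrable (fun w : ℝ => De (af j) w ^ 2 * Real.exp (-w)) := fun j =>
    (hXW.1 (af j) (supp_ok hF j)).1
  have hsplit : ∀ j, 0 < Lf j → (∫ w : ℝ, De (af j) w ^ 2 * Real.exp (-w)) -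
      (∫ w in (0 : ℝ)..(Lf j), De (af j) w ^ 2 * Real.exp (-w)) =
      (∫ w in Iic (0 : ℝ), De (af j) w ^ 2 * Real.exp (-w)) +
        ∫ w in Ioi (Lf j), De (af j) w ^ 2 * Real.exp (-w) := by
    intro j hj
    have h1 := intervalIntegral.integral_Iic_add_Ioi (b := Lf j) (hfi j).integrableOn
      (hfi j).integrableOn
    have h2 := intervalIntegral.integral_Iic_sub_Iic (a := 0) (b := Lf j) (hfi j).integrableOn
      (hfi j).integrableOn
    rw [← h1, ← h2]
    ring
  have hIic0 : ∀ j, 0 ≤ ∫ w in Iic (0 : ℝ), De (af j) w ^ 2 * Real.exp (-w) := fun j =>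
    integral_nonneg fun w => hf0 j w
  have hIoi0 : ∀ j, 0 ≤ ∫ w in Ioi (Lf j), De (af j) w ^ 2 * Real.exp (-w) := fun j =>
    integral_nonneg fun w => hf0 j w
  have hneg : Tendsto (fun j => Lf j * ∫ w in Iic (0 : ℝ), De (af j) w ^ 2 * Real.exp (-w)) atTop
      (𝓝 0) := by
    refine squeeze_zero' (hpos.mono fun j hj => mul_nonneg hj.le (hIic0 j))
      (hpos.mono fun j hj => ?_) hout
    rw [hsplit j hj]
    exact mul_le_mul_of_nonneg_left (by linarith [hIoi0 j]) hj.le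
  have hfar : Tendsto (fun j => Lf j * ∫ w in Ioi (Lf j), De (af j) w ^ 2 * Real.exp (-w)) atTop
      (𝓝 0) := by
    refine squeeze_zero' (hpos.mono fun j hj => mul_nonneg hj.le (hIoi0 j))
      (hpos.mono fun j hj => ?_) hout
    rw [hsplit j hj]
    exact mul_le_mul_of_nonneg_left (by linarith [hIic0 j]) hj.le
  refine ⟨?_, ?_, ?_, ?_⟩
  · have h1 : (∑' g : Go, (∫ x in (0 : ℝ)..1,
        (1 * (pm (mz (cl g))).eval x + (-1) * (mz (cl g) : ℝ)) ^ 2) / (1 / 4 + (g : ℝ) ^ 2)) =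
        ∑' g : Go, 2 * (mz (cl g) : ℝ) * ((mz (cl g) : ℝ) - 1) / (1 / 4 + (g : ℝ) ^ 2) := by
      refine tsum_congr fun g => ?_
      rw [← (hLEG (mz (cl g))).2.2.2.2.2]
      congr 2
      funext x
      ring
    rw [← h1]
    refine hA.2.congr fun j => ?_
    congr 1
    refine intervalIntegral.integral_congr fun w _ => ?_
    ring
  · have h1 : (∑' g : Go, (mz (cl g) : ℝ) / (1 / 4 + (g : ℝ) ^ 2)) = 1 / 4 *
        ((∑' g : Go, (∫ x in (0 : ℝ)..1,
          (1 * (pm (mz (cl g))).eval x + 1 * (mz (cl g) : ℝ)) ^ 2) / (1 / 4 + (g : ℝ) ^ 2)) -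
        ∑' g : Go, (∫ x in (0 : ℝ)..1,
          (1 * (pm (mz (cl g))).eval x + (-1) * (mz (cl g) : ℝ)) ^ 2) / (1 / 4 + (g : ℝ) ^ 2)) := by
      rw [← hB.1.tsum_sub hA.1, ← tsum_mul_left]
      refine tsum_congr fun g => ?_
      rw [← sub_div, ← intervalIntegral.integral_sub
        (Continuous.intervalIntegrable (by fun_prop) _ _)
        (Continuous.intervalIntegrable (by fun_prop) _ _)]
      have h2 : ∫ x in (0 : ℝ)..1, ((1 * (pm (mz (cl g))).eval x + 1 * (mz (cl g) : ℝ)) ^ 2 -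
          (1 * (pm (mz (cl g))).eval x + (-1) * (mz (cl g) : ℝ)) ^ 2) =
          4 * (mz (cl g) : ℝ) * ∫ x in (0 : ℝ)..1, (pm (mz (cl g))).eval x := by
        rw [← intervalIntegral.integral_const_mul]
        refine intervalIntegral.integral_congr fun x _ => ?_
        ring
      rw [h2]
      rcases Nat.eq_zero_or_pos (mz (cl g)) with h3 | h3
      · rw [h3]
        simp
      · rw [(hLEG (mz (cl g))).2.2.2.2.1 h3]
        ring
    rw [h1]
    refine ((hB.2.sub hA.2).const_mul (1 / 4)).congr' ?_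
    filter_upwards [hpos] with j hj
    have hi1 := int_form hXW (af j) (supp_ok hF j) 1 1 (Lf j) 0 (Lf j)
    have hi2 := int_form hXW (af j) (supp_ok hF j) 1 (-1) (Lf j) 0 (Lf j)
    rw [← mul_sub, ← intervalIntegral.integral_sub hi1 hi2, ← mul_assoc,
      ← intervalIntegral.integral_const_mul, ← intervalIntegral.integral_neg]
    refine intervalIntegral.integral_congr fun w _ => ?_
    have hj' : Lf j ≠ 0 := hj.ne'
    field_simp
    ring
  · intro u hu hu1
    have hC := (hQF hRH Lf af hF 1 0 0 u le_rfl hu hu1).2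
    have h1 : (∑' g : Go, (∫ x in (0 : ℝ)..u, (pm (mz (cl g))).eval x ^ 2) /
        (1 / 4 + (g : ℝ) ^ 2)) = 0 + ∑' g : Go, (∫ x in (0 : ℝ)..u,
        (1 * (pm (mz (cl g))).eval x + 0 * (mz (cl g) : ℝ)) ^ 2) / (1 / 4 + (g : ℝ) ^ 2) := by
      rw [zero_add]
      refine tsum_congr fun g => ?_
      congr 2
      funext x
      ring
    rw [h1]
    refine (hneg.add hC).congr' ?_
    filter_upwards [hpos] with j hj
    rw [← mul_add]
    congr 1
    have h2 := intervalIntegral.integral_Iic_sub_Iic (a := 0) (b := u * Lf j)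
      (hfi j).integrableOn (hfi j).integrableOn
    rw [← integral_Iic_eq_integral_Iio]
    have h3 : ∫ w in (0 * Lf j)..(u * Lf j), (1 * De (af j) w - 0 * ph w / Lf j) ^ 2 *
        Real.exp (-w) = ∫ w in (0 : ℝ)..(u * Lf j), De (af j) w ^ 2 * Real.exp (-w) := by
      rw [zero_mul]
      refine intervalIntegral.integral_congr fun w _ => ?_
      ring
    rw [h3, ← h2]
    ring
  · refine hfar.congr fun j => ?_
    rw [integral_Ici_eq_integral_Ioi]

end

end Pool.Agent.Q237.OE.COR1
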