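import Pool.Agent.Q260.OE.Stm
import Pool.Agent.Q213.GM.Laplace

set_option autoImplicit false

/-!
# Project OE, job CR1: the Laplace transform of the prime error plus zeros
-/

namespace Pool.Agent.Q237.OE.CR1

open Complex MeasureTheory Filter Topology Set
open Pool.Agent.Q286.BD (cl mz)
open Pool.Agent.Q260.GM (ph L2psi)
open Pool.Agent.Q260.OE
open Pool.Agent.Q213.GM

noncomputable section

theorem cl_re (g : ℝ) : (cl g).re = 1 / 2 := by
  unfold cl
  simp

theorem cl_ne (g : ℝ) : cl g ≠ 0 := by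
  intro h
  have := cl_re g
  rw [h] at this
  norm_num at this

theorem norm_cexp_cl (g w : ℝ) : ‖cexp (w * cl g)‖ = Real.exp (w / 2) := by
  rw [Complex.norm_exp]
  congr 1
  rw [Complex.re_ofReal_mul, cl_re]
  ring

theorem ZS_cont (S : Finset ℝ) : Continuous (ZS S) := by
  unfold ZS
  fun_prop

/-- a bound for the sum over the zeros -/
def KS (S : Finset ℝ) : ℝ := ∑ g ∈ S, (mz (cl g) : ℝ) / ‖cl g‖

theorem KS_nonneg (S : Finset ℝ) : 0 ≤ KS S := Finset.sum_nonneg fun _ _ => by positivity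

theorem ZS_norm (S : Finset ℝ) (w : ℝ) : ‖ZS S w‖ ≤ KS S * Real.exp (w / 2) := by
  unfold ZS KS
  refine (norm_sum_le _ _).trans ?_
  rw [Finset.sum_mul]
  refine Finset.sum_le_sum fun g _ => le_of_eq ?_
  rw [norm_div, norm_mul, norm_cexp_cl, Complex.norm_natCast]
  ring

/-- the transform of one zero -/
theorem one_zero (g : ℝ) {s : ℂ} (hs : 1 / 2 < s.re) :
    IntegrableOn (fun w : ℝ => (mz (cl g) : ℂ) * cexp (w * cl g) / cl g * cexp (-(s * w))) (Ioi 0) ∧
    ∫ w in Ioi (0 : ℝ), (mz (cl g) : ℂ) * cexp (w * cl g) / cl g * cexp (-(s * w)) =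
      (mz (cl g) : ℂ) / (cl g * (s - cl g)) := by
  have e : (fun w : ℝ => (mz (cl g) : ℂ) * cexp (w * cl g) / cl g * cexp (-(s * w))) =
      fun w : ℝ => (mz (cl g) : ℂ) / cl g * cexp ((cl g - s) * w) := by
    funext w
    have e1 : cexp ((cl g - s) * w) = cexp (w * cl g) * cexp (-(s * w)) := by
      rw [← Complex.exp_add]
      congr 1
      ring
    rw [e1]
    ring
  have hre : (cl g - s).re < 0 := by
    rw [Complex.sub_re, cl_re]
    linarith
  have hne : cl g - s ≠ 0 := by
    intro h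
    rw [h] at hre
    simp at hre
  have hne' : s - cl g ≠ 0 := fun h => hne (by rw [← neg_sub, h, neg_zero])
  constructor
  · rw [e]
    exact (integrableOn_exp_mul_complex_Ioi hre 0).const_mul _
  · rw [show ∫ w in Ioi (0 : ℝ), (mz (cl g) : ℂ) * cexp (w * cl g) / cl g * cexp (-(s * w)) =
      ∫ w in Ioi (0 : ℝ), (mz (cl g) : ℂ) / cl g * cexp ((cl g - s) * w) by rw [← e]]
    rw [integral_const_mul, integral_exp_mul_complex_Ioi hre 0, Complex.ofReal_zero, mul_zero,
      Complex.exp_zero]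
    have h1 := cl_ne g
    rw [← neg_sub s (cl g)]
    field_simp

theorem ZS_int (S : Finset ℝ) {s : ℂ} (hs : 1 / 2 < s.re) :
    IntegrableOn (fun w : ℝ => ZS S w * cexp (-(s * w))) (Ioi 0) ∧
    ∫ w in Ioi (0 : ℝ), ZS S w * cexp (-(s * w)) =
      ∑ g ∈ S, (mz (cl g) : ℂ) / (cl g * (s - cl g)) := by
  have e : (fun w : ℝ => ZS S w * cexp (-(s * w))) =
      fun w : ℝ => ∑ g ∈ S, (mz (cl g) : ℂ) * cexp (w * cl g) / cl g * cexp (-(s * w)) := by
    funext w
    unfold ZS
    rw [Finset.sum_mul]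
  constructor
  · rw [e]
    exact integrable_finset_sum _ fun g _ => (one_zero g hs).1
  · rw [e, integral_finset_sum _ fun g _ => (one_zero g hs).1]
    exact Finset.sum_congr rfl fun g _ => (one_zero g hs).2

theorem both_int (h : L2psi) (S : Finset ℝ) {s : ℂ} (hs : 1 / 2 < s.re) :
    IntegrableOn (fun w : ℝ => ((ph w : ℂ) + ZS S w) * cexp (-(s * w))) (Ioi 0) ∧
    ∫ w in Ioi (0 : ℝ), ((ph w : ℂ) + ZS S w) * cexp (-(s * w)) =
      FF s + ∑ g ∈ S, (mz (cl g) : ℂ) / (cl g * (s - cl g)) := by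
  have e : (fun w : ℝ => ((ph w : ℂ) + ZS S w) * cexp (-(s * w))) =
      fun w : ℝ => (ph w : ℂ) * cexp (-(s * w)) + ZS S w * cexp (-(s * w)) := by
    funext w
    ring
  rw [e]
  refine ⟨(term_int h hs).add (ZS_int S hs).1, ?_⟩
  rw [integral_add (term_int h hs) (ZS_int S hs).1, (ZS_int S hs).2]
  rfl

theorem t_CR1 : S_CR1 := by
  intro h S δ hδ hδ4
  refine ⟨?_, ?_, ?_⟩
  · have hs : 1 / 2 < (((1 / 2 + δ : ℝ) : ℂ)).re := by
      rw [Complex.ofReal_re]
      linarith
    exact (both_int h S hs).1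
  · have h1 := h (1 + 2 * δ) (by linarith)
    have h2 : IntegrableOn (fun w : ℝ => Real.exp ((-(2 * δ)) * w)) (Ioi 0) :=
      integrableOn_exp_mul_Ioi (by linarith) 0
    refine Integrable.mono' ((h1.const_mul 2).add (h2.const_mul (2 * KS S ^ 2))) ?_
      (Eventually.of_forall fun w => ?_)
    · have hm : Measurable fun w : ℝ => (ph w : ℂ) + ZS S w := ph_c_meas.add (ZS_cont S).measurable
      exact ((hm.norm.pow_const 2).mul (by fun_prop)).aestronglyMeasurable
    · rw [Real.norm_of_nonneg (by positivity)]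
      have h3 : ‖(ph w : ℂ) + ZS S w‖ ≤ |ph w| + KS S * Real.exp (w / 2) := by
        refine (norm_add_le _ _).trans ?_
        rw [Complex.norm_real, Real.norm_eq_abs]
        exact add_le_add_right (ZS_norm S w) _
      have h4 : ‖(ph w : ℂ) + ZS S w‖ ^ 2 ≤ 2 * ph w ^ 2 + 2 * KS S ^ 2 * Real.exp w := by
        have h5 : Real.exp w = Real.exp (w / 2) ^ 2 := by
          rw [← Real.exp_nat_mul]
          congr 1
          push_cast
          ring
        rw [h5, ← sq_abs (ph w)]
        have h6 := pow_le_pow_left₀ (norm_nonneg _) h3 2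
        nlinarith [sq_nonneg (|ph w| - KS S * Real.exp (w / 2))]
      have h7 : Real.exp w * Real.exp (-((1 + 2 * δ) * w)) = Real.exp (-(2 * δ) * w) := by
        rw [← Real.exp_add]
        congr 1
        ring
      calc ‖(ph w : ℂ) + ZS S w‖ ^ 2 * Real.exp (-((1 + 2 * δ) * w))
          ≤ (2 * ph w ^ 2 + 2 * KS S ^ 2 * Real.exp w) * Real.exp (-((1 + 2 * δ) * w)) :=
            mul_le_mul_of_nonneg_right h4 (Real.exp_pos _).le
        _ = 2 * (ph w ^ 2 * Real.exp (-((1 + 2 * δ) * w))) +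
            2 * KS S ^ 2 * (Real.exp w * Real.exp (-((1 + 2 * δ) * w))) := by ring
        _ = _ := by rw [h7]; rfl
  · intro t
    set s : ℂ := ((1 / 2 + δ : ℝ) : ℂ) + t * I with hsdef
    have hre : s.re = 1 / 2 + δ := by
      rw [hsdef, Complex.add_re, Complex.ofReal_re]
      simp
    have hs : 1 / 2 < s.re := by rw [hre]; linarith
    have hs1 : s ≠ 1 := by
      intro h1
      rw [h1, Complex.one_re] at hre
      linarith
    have hs0 : s ≠ 0 := by
      intro h1
      rw [h1, Complex.zero_re] at hre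
      linarith
    have hs1' : s - 1 ≠ 0 := sub_ne_zero.2 hs1
    have hG : GS S δ t = FF s + ∑ g ∈ S, (mz (cl g) : ℂ) / (cl g * (s - cl g)) := by
      rw [← (both_int h S hs).2]
      unfold GS
      rw [← hsdef]
      refine setIntegral_congr_fun measurableSet_Ioi fun w _ => ?_
      simp only [neg_mul]
    rw [hG, mul_add, FF_val h hs hs1, Finset.mul_sum, add_assoc (_ - _), ← Finset.sum_add_distrib]
    congr 1
    · field_simp
    · refine Finset.sum_congr rfl fun g _ => ?_
      have h1 := cl_ne g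
      have h2 : s - cl g ≠ 0 := by
        intro h3
        have h4 := congrArg Complex.re h3
        rw [Complex.sub_re, cl_re, hre, Complex.zero_re] at h4
        linarith
      field_simp
      ring

end

end Pool.Agent.Q237.OE.CR1
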