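import Pool.Agent.Q260.OE.Stm
import Pool.Agent.Q213.GM.Lap

set_option autoImplicit false

/-!
# Project OE, job CR4: Cramér's mean square theorem with the approximation by zeros
-/

namespace Pool.Agent.Q237.OE.CR4

open Complex MeasureTheory Filter Topology Set
open Pool.Agent.Q286.BD (cl mz)
open Pool.Agent.Q260.GM (ph L2psi)
open Pool.Agent.Q260.OE

noncomputable section

/-- Plancherel for the damped error -/
theorem planch (h1 : S_CR1) (hP : S_PLG) (hL : L2psi) (S : Finset ℝ) (δ : ℝ) (hδ : 0 < δ)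
    (hδ4 : δ ≤ 1 / 4) :
    IntegrableOn (fun w : ℝ => ‖(ph w : ℂ) + ZS S w‖ ^ 2 * Real.exp (-((1 + 2 * δ) * w))) (Ioi 0) ∧
    ∫ w in Ioi (0 : ℝ), ‖(ph w : ℂ) + ZS S w‖ ^ 2 * Real.exp (-((1 + 2 * δ) * w)) =
      1 / (2 * Real.pi) * ∫ t : ℝ, ‖GS S δ t‖ ^ 2 := by
  obtain ⟨hA, hB, -⟩ := h1 hL S δ hδ hδ4
  refine ⟨hB, ?_⟩
  have e1 : ∀ w : ℝ, ‖((ph w : ℂ) + ZS S w) * cexp (-(((1 / 2 + δ : ℝ) : ℂ) * w))‖ ^ 2 =
      ‖(ph w : ℂ) + ZS S w‖ ^ 2 * Real.exp (-((1 + 2 * δ) * w)) := by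
    intro w
    rw [norm_mul, mul_pow, Complex.norm_exp, ← Real.exp_nat_mul]
    congr 2
    rw [Complex.neg_re, Complex.re_ofReal_mul, Complex.ofReal_re]
    push_cast
    ring
  have hB' : IntegrableOn
      (fun w => ‖((ph w : ℂ) + ZS S w) * cexp (-(((1 / 2 + δ : ℝ) : ℂ) * w))‖ ^ 2) (Ioi 0) := by
    simp only [e1]
    exact hB
  have h2 := (hP _ hA hB').2
  simp only [e1] at h2
  rw [h2]
  congr 2
  funext t
  congr 2
  unfold GS
  refine setIntegral_congr_fun measurableSet_Ioi fun w _ => ?_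
  show ((ph w : ℂ) + ZS S w) * cexp (-(((1 / 2 + δ : ℝ) : ℂ) * w)) * cexp (-(t * w * I)) =
    ((ph w : ℂ) + ZS S w) * cexp (-(((1 / 2 + δ : ℝ) : ℂ) + t * I) * w)
  rw [mul_assoc, ← Complex.exp_add]
  congr 2
  ring

theorem t_CR4 (hL2 : RiemannHypothesis → L2psi) (h1 : S_CR1) (h3 : S_CR3) (hP : S_PLG) : S_CR4 := by
  intro hRH ε hε
  have hL := hL2 hRH
  have he2 : 0 < Real.exp 2 := Real.exp_pos 2
  have hpi := Real.pi_pos
  obtain ⟨S0, hS0, h4⟩ := h3 hRH (2 * Real.pi * ε / Real.exp 2) (by positivity)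
  refine ⟨S0, hS0, fun S hS hSz => ?_⟩
  have h5 := h4 S hS hSz
  have h6 : Tendsto (fun L : ℝ => L⁻¹) atTop (𝓝[>] 0) := tendsto_inv_atTop_nhdsGT_zero
  filter_upwards [h6.eventually h5, eventually_ge_atTop (4 : ℝ)] with L hLe hL4
  have hL0 : 0 < L := by linarith
  have hδ : 0 < L⁻¹ := inv_pos.2 hL0
  have hδ4 : L⁻¹ ≤ 1 / 4 := by
    rw [inv_le_comm₀ hL0 (by norm_num)]
    norm_num
    exact hL4
  obtain ⟨hB, hpl⟩ := planch h1 hP hL S L⁻¹ hδ hδ4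
  have h7 : ∫ w in (0 : ℝ)..L, ‖(ph w : ℂ) + ZS S w‖ ^ 2 * Real.exp (-w) ≤
      Real.exp 2 * ∫ w in Ioi (0 : ℝ), ‖(ph w : ℂ) + ZS S w‖ ^ 2 *
        Real.exp (-((1 + 2 * L⁻¹) * w)) := by
    rw [intervalIntegral.integral_of_le hL0.le]
    have h8 : ∫ w in Ioc (0 : ℝ) L, ‖(ph w : ℂ) + ZS S w‖ ^ 2 * Real.exp (-w) ≤
        ∫ w in Ioc (0 : ℝ) L, Real.exp 2 * (‖(ph w : ℂ) + ZS S w‖ ^ 2 *
          Real.exp (-((1 + 2 * L⁻¹) * w))) := by
      refine integral_mono_of_nonneg (Eventually.of_forall fun w => by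
        show 0 ≤ ‖(ph w : ℂ) + ZS S w‖ ^ 2 * Real.exp (-w)
        positivity)
        ((hB.mono_set Ioc_subset_Ioi_self).const_mul _) ?_
      refine (ae_restrict_iff' measurableSet_Ioc).2 (Eventually.of_forall fun w hw => ?_)
      have h9 : Real.exp (-w) ≤ Real.exp 2 * Real.exp (-((1 + 2 * L⁻¹) * w)) := by
        rw [← Real.exp_add]
        apply Real.exp_le_exp.2
        have h10 : L⁻¹ * w ≤ 1 := by
          rw [inv_mul_le_iff₀ hL0, mul_one]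
          exact hw.2
        linarith
      show ‖(ph w : ℂ) + ZS S w‖ ^ 2 * Real.exp (-w) ≤ Real.exp 2 * (‖(ph w : ℂ) + ZS S w‖ ^ 2 *
          Real.exp (-((1 + 2 * L⁻¹) * w)))
      calc _ ≤ ‖(ph w : ℂ) + ZS S w‖ ^ 2 * (Real.exp 2 * Real.exp (-((1 + 2 * L⁻¹) * w))) :=
            mul_le_mul_of_nonneg_left h9 (by positivity)
        _ = _ := by ring
    refine h8.trans ?_
    rw [integral_const_mul]
    refine mul_le_mul_of_nonneg_left ?_ he2.le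
    exact setIntegral_mono_set hB (Eventually.of_forall fun w => by
      show 0 ≤ ‖(ph w : ℂ) + ZS S w‖ ^ 2 * Real.exp (-((1 + 2 * L⁻¹) * w))
      positivity) (Eventually.of_forall Ioc_subset_Ioi_self)
  rw [hpl] at h7
  have h8 : L⁻¹ * ∫ t : ℝ, ‖GS S L⁻¹ t‖ ^ 2 ≤ 2 * Real.pi * ε / Real.exp 2 := hLe
  calc 1 / L * ∫ w in (0 : ℝ)..L, ‖(ph w : ℂ) + ZS S w‖ ^ 2 * Real.exp (-w)
      ≤ 1 / L * (Real.exp 2 * (1 / (2 * Real.pi) * ∫ t : ℝ, ‖GS S L⁻¹ t‖ ^ 2)) :=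
        mul_le_mul_of_nonneg_left h7 (by positivity)
    _ = Real.exp 2 / (2 * Real.pi) * (L⁻¹ * ∫ t : ℝ, ‖GS S L⁻¹ t‖ ^ 2) := by
        rw [one_div L]
        ring
    _ ≤ Real.exp 2 / (2 * Real.pi) * (2 * Real.pi * ε / Real.exp 2) :=
        mul_le_mul_of_nonneg_left h8 (by positivity)
    _ = ε := by field_simp

end

end Pool.Agent.Q237.OE.CR4
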